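import Pool.Agent.Y94.EQ.Fin

/-!
# Energies and discriminants near the Schur-Siegel-Smyth constant are small
-/

open MeasureTheory Polynomial Pool.Agent.W401.SSS

namespace Pool.Agent.Results.MP_1ddd1c_nt.EnergyStability

/-- Arithmetic probability measures with compact support in `[0,∞)` and mean the
Schur-Siegel-Smyth constant have logarithmic energy `0`. Moreover, for every `ε > 0` there are a
finite set `F` of irreducible integer polynomials and `δ > 0` such that every probability measure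
with compact support in `[0,∞)`, finite energy and mean at most `lamSSS + δ` which satisfies the
conditions of arithmeticity for the members of `F` only has energy at most `ε`; every arithmetic
one has finite energy between `0` and `ε`; and every totally positive algebraic integer of degree
`n` with mean trace at most `lamSSS + δ` and minimal polynomial not in `F` has discriminant at
most `exp (ε n ^ 2)`. -/
theorem result :
    (∀ μ : Measure ℝ, IsProbabilityMeasure μ →
      (∃ K : Set ℝ, IsCompact K ∧ K ⊆ Set.Ici 0 ∧ μ Kᶜ = 0) → Arith μ →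
      ∫ x, x ∂μ = lamSSS → Eint μ ∧ En μ = 0) ∧
    ∀ ε : ℝ, 0 < ε → ∃ (F : Finset ℤ[X]) (δ : ℝ), 0 < δ ∧ (∀ Q ∈ F, Irreducible Q) ∧
      (∀ ν : Measure ℝ, IsProbabilityMeasure ν →
        (∃ K : Set ℝ, IsCompact K ∧ K ⊆ Set.Ici 0 ∧ ν Kᶜ = 0) →
        ∫ x, x ∂ν ≤ lamSSS + δ → (∀ Q ∈ F, LogNonneg ν Q) → Eint ν → En ν ≤ ε) ∧
      (∀ ν : Measure ℝ, IsProbabilityMeasure ν →
        (∃ K : Set ℝ, IsCompact K ∧ K ⊆ Set.Ici 0 ∧ ν Kᶜ = 0) →
        ∫ x, x ∂ν ≤ lamSSS + δ → Arith ν → Eint ν ∧ 0 ≤ En ν ∧ En ν ≤ ε) ∧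
      ∀ p : ℤ[X], p.Monic → Irreducible p → TotPos p → p ∉ F → mtr p ≤ lamSSS + δ →
        1 ≤ |(p.discr : ℝ)| ∧ |(p.discr : ℝ)| ≤ Real.exp (ε * (p.natDegree : ℝ) ^ 2) := by
  refine ⟨?_, ?_⟩
  · intro μ hμ hK hA hm
    obtain ⟨B, -, hB⟩ := on_of_compact hμ hK
    exact (facts.2.2 B μ hB hA hm).2
  · intro ε hε
    obtain ⟨F, δ, h1, h2, h3, h4⟩ := Pool.Agent.Y94.EQ.energy_all hε
    refine ⟨F, δ, h1, h2, ?_, ?_, h4⟩
    · intro ν hν hK hm hF hE
      obtain ⟨B, -, hB⟩ := on_of_compact hν hK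
      exact h3 B ν hB hF hm hE
    · intro ν hν hK hm hA
      obtain ⟨B, -, hB⟩ := on_of_compact hν hK
      obtain ⟨g1, g2⟩ := fSERRE B ν hB hA
      exact ⟨g1, g2, h3 B ν hB (fun Q hQ => hA Q (h2 Q hQ).ne_zero) hm g1⟩

end Pool.Agent.Results.MP_1ddd1c_nt.EnergyStability
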